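import Mathlib
import Pool.Agent.Y892.Mob

set_option autoImplicit false

/-! # Runs of Möbius value 1 along `n ^ 2 + 1`: the longest run has length 13 -/

namespace Pool.Agent.Results.MP_e6b4b8_nt.LongestRun

open ArithmeticFunction

/-- The statement of Q1 is false, and the longest run has length exactly `13`. -/
theorem result :
    (¬ ∀ k : ℕ, 0 < k →
      {n : ℕ | ∀ j < k, moebius ((n + j) ^ 2 + 1) = 1}.Infinite) ∧
    IsGreatest {k : ℕ | ∃ n : ℕ, ∀ j < k, moebius ((n + j) ^ 2 + 1) = 1} 13 := by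
  have key : ∀ n k : ℕ, (∀ j < k, moebius ((n + j) ^ 2 + 1) = 1) → k ≤ 13 := by
    intro n k h
    by_contra hk
    push Not at hk
    obtain ⟨j, hj, h0⟩ := Pool.Agent.Y892.Mob.block14 n
    rw [h j (by omega)] at h0
    exact one_ne_zero h0
  refine ⟨fun h => ?_, ⟨360844, Pool.Agent.Y892.Mob.run13⟩, ?_⟩
  · obtain ⟨n, hn⟩ := (h 14 (by norm_num)).nonempty
    have := key n 14 hn
    omega
  · rintro k ⟨n, hn⟩
    exact key n k hn

end Pool.Agent.Results.MP_e6b4b8_nt.LongestRun
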